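import Pool.Agent.P8H30.LG.Stm

/-!
# Project LG (helper30), package LEG
-/

set_option autoImplicit false

open Filter Topology MeasureTheory

namespace Pool.Agent.P8H52.LG

open Pool.Agent.P8H30.LG
open Pool.Agent.TH818.AR (KK EE)

lemma KK_zero : KK 0 = Real.pi / 2 := by
  unfold KK
  simp

lemma EE_zero : EE 0 = Real.pi / 2 := by
  unfold EE
  simp

lemma EE_cont : Continuous EE := by
  unfold EE
  apply intervalIntegral.continuous_parametric_intervalIntegral_of_continuous'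
  fun_prop

lemma EE_one : EE 1 = 1 := by
  unfold EE
  have h : ∫ θ in (0 : ℝ)..(Real.pi / 2), √(1 - 1 * Real.sin θ ^ 2) = ∫ θ in (0 : ℝ)..(Real.pi / 2), Real.cos θ := by
    apply intervalIntegral.integral_congr
    intro θ hθ
    have hpi := Real.pi_pos
    rw [Set.uIcc_of_le (by positivity)] at hθ
    have hc : 0 ≤ Real.cos θ := Real.cos_nonneg_of_mem_Icc ⟨by linarith [hθ.1], hθ.2⟩
    show √(1 - 1 * Real.sin θ ^ 2) = Real.cos θ
    rw [one_mul, ← Real.cos_sq', Real.sqrt_sq hc]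
  rw [h, integral_cos]
  simp

theorem leg : S_LEG := by
  have hKa : AnalyticAt ℝ KK 0 := Pool.Agent.TH818.AR.an.1 0 (by simp)
  have hEa : AnalyticAt ℝ EE 0 := Pool.Agent.TH818.AR.an.2 0 (by simp)
  obtain ⟨W, hW, hleg⟩ := Pool.Agent.TH818.AR.leg
  obtain ⟨κ, G, hκ, hG, hsing⟩ := Pool.Agent.TH818.AR.sing
  -- limits at `0`
  have hid : Tendsto (fun x : ℝ => x) (𝓝[>] (0 : ℝ)) (𝓝 0) := tendsto_nhdsWithin_of_tendsto_nhds tendsto_id
  have hK : Tendsto KK (𝓝[>] (0 : ℝ)) (𝓝 (Real.pi / 2)) := by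
    have h := hKa.continuousAt.tendsto
    rw [KK_zero] at h
    exact tendsto_nhdsWithin_of_tendsto_nhds h
  have hG0 : Tendsto G (𝓝[>] (0 : ℝ)) (𝓝 (G 0)) := tendsto_nhdsWithin_of_tendsto_nhds hG.continuousAt.tendsto
  have hE1 : Tendsto (fun x : ℝ => EE (1 - x)) (𝓝[>] (0 : ℝ)) (𝓝 1) := by
    have h : Tendsto (fun x : ℝ => EE (1 - x)) (𝓝 0) (𝓝 (EE (1 - 0))) :=
      (EE_cont.comp (continuous_const.sub continuous_id)).tendsto 0
    rw [sub_zero, EE_one] at h
    exact tendsto_nhdsWithin_of_tendsto_nhds h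
  have hxlog : Tendsto (fun x : ℝ => x * Real.log x) (𝓝[>] (0 : ℝ)) (𝓝 0) := by
    have h := Real.continuous_mul_log.tendsto 0
    rw [zero_mul] at h
    exact tendsto_nhdsWithin_of_tendsto_nhds h
  -- the slope
  have hD : DifferentiableAt ℝ (fun x => EE x - KK x) 0 := hEa.differentiableAt.sub hKa.differentiableAt
  have hslope : Tendsto (fun x : ℝ => (EE x - KK x) / x) (𝓝[>] (0 : ℝ)) (𝓝 (deriv (fun x => EE x - KK x) 0)) := by
    have h := hD.hasDerivAt.tendsto_slope_zero_right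
    refine h.congr' ?_
    filter_upwards [self_mem_nhdsWithin] with x hx
    simp only [zero_add, smul_eq_mul]
    rw [EE_zero, KK_zero, sub_self, sub_zero, inv_mul_eq_div]
  have hprod : Tendsto (fun x : ℝ => (EE x - KK x) * KK (1 - x)) (𝓝[>] (0 : ℝ)) (𝓝 0) := by
    have h1 : Tendsto (fun x : ℝ => ((EE x - KK x) / x) * (KK x * (κ * (x * Real.log x) + x * G x)))
        (𝓝[>] (0 : ℝ)) (𝓝 (deriv (fun x => EE x - KK x) 0 * (Real.pi / 2 * (κ * 0 + 0 * G 0)))) :=
      hslope.mul (hK.mul ((hxlog.const_mul κ).add (hid.mul hG0)))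
    have e : deriv (fun x => EE x - KK x) 0 * (Real.pi / 2 * (κ * 0 + 0 * G 0)) = 0 := by ring
    rw [e] at h1
    refine h1.congr' ?_
    filter_upwards [self_mem_nhdsWithin, hsing] with x hx hs
    have hx0 : x ≠ 0 := ne_of_gt hx
    rw [hs]
    field_simp
  have hlim : Tendsto (fun x : ℝ => KK x * EE (1 - x) + (EE x - KK x) * KK (1 - x)) (𝓝[>] (0 : ℝ))
      (𝓝 (Real.pi / 2 * 1 + 0)) := (hK.mul hE1).add hprod
  have hWe : W = Real.pi / 2 := by
    have h1 : Tendsto (fun _ : ℝ => W) (𝓝[>] (0 : ℝ)) (𝓝 (Real.pi / 2 * 1 + 0)) := by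
      refine hlim.congr' ?_
      have hmem : ∀ᶠ x in 𝓝[>] (0 : ℝ), x ∈ Set.Ioo (0 : ℝ) 1 := Ioo_mem_nhdsGT one_pos
      filter_upwards [hmem] with x hx
      rw [← hleg x hx.1 hx.2]
      ring
    have h2 := tendsto_nhds_unique h1 tendsto_const_nhds
    linarith
  constructor
  · intro x hx0 hx1
    rw [hleg x hx0 hx1, hWe]
  · have hO1 := hKa.differentiableAt.isBigO_sub
    have hF : DifferentiableAt ℝ (fun x => EE x - (1 - x) * KK x) 0 :=
      hEa.differentiableAt.sub (((differentiableAt_const 1).sub differentiableAt_id).mul hKa.differentiableAt)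
    have hO2 := hF.isBigO_sub
    obtain ⟨c1, hc1⟩ := hO1.bound
    obtain ⟨c2, hc2⟩ := hO2.bound
    obtain ⟨r, hr, hball⟩ := Metric.eventually_nhds_iff.1 (hc1.and hc2)
    refine ⟨max c1 c2, min (r / 2) (1 / 2), by positivity, lt_of_le_of_lt (min_le_right _ _) (by norm_num), ?_⟩
    intro x hx0 hx1
    have hxr : x < r := by
      have := hx1.trans (min_le_left _ _)
      linarith
    obtain ⟨h1, h2⟩ := hball (y := x) (by rw [Real.dist_eq, sub_zero, abs_of_pos hx0]; exact hxr)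
    rw [Real.norm_eq_abs, Real.norm_eq_abs, sub_zero, abs_of_pos hx0, KK_zero] at h1
    simp only [Real.norm_eq_abs, sub_zero, abs_of_pos hx0, KK_zero, EE_zero, one_mul, sub_self] at h2
    exact ⟨h1.trans (mul_le_mul_of_nonneg_right (le_max_left _ _) hx0.le),
      h2.trans (mul_le_mul_of_nonneg_right (le_max_right _ _) hx0.le)⟩

end Pool.Agent.P8H52.LG
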