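import Pool.Agent.P8H30.LG.Stm

/-!
# Project LG (helper30), package ODE
-/

set_option autoImplicit false

namespace Pool.Agent.P8H52.LG

open Pool.Agent.P8H30.LG

lemma shift (w : ℕ → ℝ) (x : ℝ) (hs : Summable (fun k : ℕ => w k * x ^ k)) (h0 : w 0 = 0) :
    ∑' k : ℕ, w k * x ^ k = ∑' k : ℕ, w (k + 1) * x ^ (k + 1) := by
  rw [hs.tsum_eq_zero_add, h0, zero_mul, zero_add]

lemma diffe (w : ℕ → ℝ) (x : ℝ) (hs : Summable (fun k : ℕ => w k * x ^ k)) (h0 : w 0 = 0) :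
    (1 - x) * ∑' k : ℕ, w k * x ^ k = ∑' k : ℕ, (w (k + 1) - w k) * x ^ (k + 1) := by
  have h1 : Summable (fun k : ℕ => w (k + 1) * x ^ (k + 1)) :=
    (summable_nat_add_iff (f := fun k : ℕ => w k * x ^ k) 1).2 hs
  have h2 : x * ∑' k : ℕ, w k * x ^ k = ∑' k : ℕ, x * (w k * x ^ k) := (tsum_mul_left).symm
  have h3 : Summable (fun k : ℕ => x * (w k * x ^ k)) := hs.mul_left x
  rw [sub_mul, one_mul, h2]
  conv_lhs => rw [shift w x hs h0]
  rw [← h1.tsum_sub h3]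
  apply tsum_congr
  intro k
  ring

lemma cube (k : ℕ) (a : ℝ) (h : |a| ≤ (k : ℝ) ^ 3 ∨ |a| ≤ (k : ℝ) ^ 2 ∨ |a| ≤ (k : ℝ) ∨ |a| ≤ 1) :
    |a| ≤ ((k : ℝ) + 1) ^ 3 := by
  have hk : (0 : ℝ) ≤ k := Nat.cast_nonneg k
  have h2 : 0 ≤ (k : ℝ) ^ 2 := sq_nonneg _
  have h3 : 0 ≤ (k : ℝ) ^ 3 := by positivity
  have e : ((k : ℝ) + 1) ^ 3 = (k : ℝ) ^ 3 + 3 * (k : ℝ) ^ 2 + 3 * k + 1 := by ring
  rw [e]
  rcases h with h | h | h | h <;> linarith

theorem ode : S_ODE := by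
  rintro ⟨hu0, hv0, hRu, hRv, hu, hv, -, -⟩ hgen
  have hkn : ∀ k : ℕ, (0 : ℝ) ≤ k := fun k => Nat.cast_nonneg k
  -- the bounds
  have bu : ∀ k : ℕ, |u k| ≤ ((k : ℝ) + 1) ^ 3 := fun k => cube k _ (Or.inr (Or.inr (Or.inr (hu k))))
  have bku : ∀ k : ℕ, |(k : ℝ) * u k| ≤ ((k : ℝ) + 1) ^ 3 := fun k => cube k _ (Or.inr (Or.inr (Or.inl (by
    rw [abs_mul, abs_of_nonneg (hkn k)]
    nlinarith [hu k, hkn k]))))
  have bkku : ∀ k : ℕ, |(k : ℝ) * ((k : ℝ) * u k)| ≤ ((k : ℝ) + 1) ^ 3 := fun k => cube k _ (Or.inr (Or.inl (by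
    rw [abs_mul, abs_mul, abs_of_nonneg (hkn k)]
    nlinarith [hu k, mul_nonneg (hkn k) (hkn k)])))
  have bv : ∀ k : ℕ, |v k| ≤ ((k : ℝ) + 1) ^ 3 := fun k => cube k _ (Or.inr (Or.inr (Or.inl (hv k))))
  have bkv : ∀ k : ℕ, |(k : ℝ) * v k| ≤ ((k : ℝ) + 1) ^ 3 := fun k => cube k _ (Or.inr (Or.inl (by
    rw [abs_mul, abs_of_nonneg (hkn k)]
    nlinarith [hv k, hkn k])))
  have bkkv : ∀ k : ℕ, |(k : ℝ) * ((k : ℝ) * v k)| ≤ ((k : ℝ) + 1) ^ 3 := fun k => cube k _ (Or.inl (by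
    rw [abs_mul, abs_mul, abs_of_nonneg (hkn k)]
    nlinarith [hv k, mul_nonneg (hkn k) (hkn k)]))
  obtain ⟨gu, B1, hB1⟩ := hgen u bu
  obtain ⟨gku, B2, hB2⟩ := hgen (fun k => (k : ℝ) * u k) bku
  obtain ⟨gkku, -, -⟩ := hgen (fun k => (k : ℝ) * ((k : ℝ) * u k)) bkku
  obtain ⟨gv, B3, hB3⟩ := hgen v bv
  obtain ⟨gkv, B4, hB4⟩ := hgen (fun k => (k : ℝ) * v k) bkv
  obtain ⟨gkkv, -, -⟩ := hgen (fun k => (k : ℝ) * ((k : ℝ) * v k)) bkkv
  constructor
  · intro x hx0 hx1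
    have h1x : (1 - x) ≠ 0 := by linarith
    have hx : x ≠ 0 := hx0.ne'
    obtain ⟨su, du⟩ := gu x hx0 hx1
    obtain ⟨sku, dku⟩ := gku x hx0 hx1
    obtain ⟨skku, -⟩ := gkku x hx0 hx1
    obtain ⟨sv, dv⟩ := gv x hx0 hx1
    obtain ⟨skv, dkv⟩ := gkv x hx0 hx1
    obtain ⟨skkv, -⟩ := gkkv x hx0 hx1
    beta_reduce at sku dku skku skv dkv skkv
    -- the second sums
    have e1 : (1 - x) * ∑' k : ℕ, (k : ℝ) * ((k : ℝ) * u k) * x ^ k = x * h x + x / 4 * f x := by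
      have h1 := diffe (fun k => (k : ℝ) * ((k : ℝ) * u k)) x skku (by simp)
      beta_reduce at h1
      rw [h1]
      unfold h f
      rw [← tsum_mul_left, ← tsum_mul_left, ← (sku.mul_left x).tsum_add (su.mul_left (x / 4))]
      apply tsum_congr
      intro k
      have h2 := hRu k
      push_cast
      have h3 : ((k : ℝ) + 1) * (((k : ℝ) + 1) * u (k + 1)) = ((k : ℝ) + 1 / 2) ^ 2 * u k := by
        rw [← h2]; ring
      rw [h3]
      ring
    have sh1 : Summable (fun k : ℕ => (((k + 1 : ℕ) : ℝ) * u (k + 1)) * x ^ (k + 1)) :=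
      (summable_nat_add_iff (f := fun k : ℕ => ((k : ℝ) * u k) * x ^ k) 1).2 sku
    have e0 : h x = ∑' k : ℕ, (((k + 1 : ℕ) : ℝ) * u (k + 1)) * x ^ (k + 1) := by
      have h1 := shift (fun k => (k : ℝ) * u k) x sku (by simp)
      exact h1
    have e2 : (1 - x) * ∑' k : ℕ, (k : ℝ) * ((k : ℝ) * v k) * x ^ k =
        x * p x + x / 4 * g x - 2 * (1 - x) * h x + x * f x := by
      have h1 := diffe (fun k => (k : ℝ) * ((k : ℝ) * v k)) x skkv (by simp)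
      beta_reduce at h1
      rw [h1]
      have h5 : x * p x + x / 4 * g x - 2 * (1 - x) * h x + x * f x =
          ((x * p x + x / 4 * g x) + (2 * x * h x + x * f x)) - 2 * h x := by ring
      rw [h5]
      have h6 : (2 : ℝ) * h x = ∑' k : ℕ, 2 * ((((k + 1 : ℕ) : ℝ) * u (k + 1)) * x ^ (k + 1)) := by
        rw [e0, tsum_mul_left]
      rw [h6]
      unfold p g h f
      rw [← tsum_mul_left, ← tsum_mul_left, ← tsum_mul_left, ← tsum_mul_left,
        ← (skv.mul_left x).tsum_add (sv.mul_left (x / 4)),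
        ← (sku.mul_left (2 * x)).tsum_add (su.mul_left x),
        ← ((skv.mul_left x).add (sv.mul_left (x / 4))).tsum_add ((sku.mul_left (2 * x)).add (su.mul_left x)),
        ← (((skv.mul_left x).add (sv.mul_left (x / 4))).add
          ((sku.mul_left (2 * x)).add (su.mul_left x))).tsum_sub (sh1.mul_left 2)]
      apply tsum_congr
      intro k
      have h2 := hRv k
      push_cast
      have h3 : ((k : ℝ) + 1) * (((k : ℝ) + 1) * v (k + 1)) =
          ((k : ℝ) + 1 / 2) ^ 2 * v k + 2 * ((k : ℝ) + 1 / 2) * u k - 2 * ((k : ℝ) + 1) * u (k + 1) := by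
        linear_combination h2
      rw [h3]
      ring
    have q1 : (∑' k : ℕ, (k : ℝ) * ((k : ℝ) * u k) * x ^ k) / x = (x * h x + x / 4 * f x) / ((1 - x) * x) := by
      rw [← e1, mul_div_mul_left _ _ h1x]
    have q2 : (∑' k : ℕ, (k : ℝ) * ((k : ℝ) * v k) * x ^ k) / x =
        (x * p x + x / 4 * g x - 2 * (1 - x) * h x + x * f x) / ((1 - x) * x) := by
      rw [← e2, mul_div_mul_left _ _ h1x]
    refine ⟨du, ?_, dv, ?_⟩
    · rw [← q1]; exact dku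
    · rw [← q2]; exact dkv
  · refine ⟨|B1| + |B2| + |B3| + |B4|, fun x hx0 hx1 => ?_⟩
    have a1 := hB1 x hx0 hx1
    have a2 := hB2 x hx0 hx1
    have a3 := hB3 x hx0 hx1
    have a4 := hB4 x hx0 hx1
    simp only [Nat.cast_zero, zero_mul, sub_zero] at a2 a4
    rw [hu0] at a1
    rw [hv0, sub_zero] at a3
    have c1 : B1 * x ≤ |B1| * x := mul_le_mul_of_nonneg_right (le_abs_self _) hx0.le
    have c2 : B2 * x ≤ |B2| * x := mul_le_mul_of_nonneg_right (le_abs_self _) hx0.le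
    have c3 : B3 * x ≤ |B3| * x := mul_le_mul_of_nonneg_right (le_abs_self _) hx0.le
    have c4 : B4 * x ≤ |B4| * x := mul_le_mul_of_nonneg_right (le_abs_self _) hx0.le
    have d1 : 0 ≤ |B1| * x := by positivity
    have d2 : 0 ≤ |B2| * x := by positivity
    have d3 : 0 ≤ |B3| * x := by positivity
    have d4 : 0 ≤ |B4| * x := by positivity
    have e : (|B1| + |B2| + |B3| + |B4|) * x = |B1| * x + |B2| * x + |B3| * x + |B4| * x := by ring
    rw [e]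
    refine ⟨?_, ?_, ?_, ?_⟩
    · exact a1.trans (by linarith)
    · exact (show |h x| ≤ B2 * x from a2).trans (by linarith)
    · exact (show |g x| ≤ B3 * x from a3).trans (by linarith)
    · exact (show |p x| ≤ B4 * x from a4).trans (by linarith)

end Pool.Agent.P8H52.LG
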